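import Pool.Agent.W916.ProjCount

set_option autoImplicit false

/-!
# There is no countable universal projective algebra of plane sets

For a set `A` of natural numbers let `code A` be the plane set whose points are `(n, n)`,
`(n + 1, n)` for natural numbers `n`, and `(-(n + 1), n)` for `n` in `A`. There are terms `t n` in
one variable (in the operations of projective algebras) such that `t n` evaluated at `code A` is
empty if and only if `n` is not in `A`: one first defines, by recursion on `n`, the points `(n, 0)`
and `(0, n)` by terms. If every countable projective algebra embeds in `U` then the images in `U`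
of the sets `code A` are pairwise different, so that `U` has at least continuum many members.
-/

namespace Pool.Agent.Results.MP_3db952_lc.NoUniversal

open Set

open Pool.Agent.W916.PA (IsProjectiveAlgebra Isomorphic IsIso code code_inj generated
  generated_isProjectiveAlgebra generated_countable range_const_one subset_generated)

/-- No projective algebra of plane sets with fewer than continuum many members (in particular no
countable one) is universal for the countable projective algebras. -/
theorem result : ¬ ∃ U : Set (Set (ℝ × ℝ)), IsProjectiveAlgebra U ∧
    Cardinal.mk U < Cardinal.continuum ∧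
    ∀ F : Set (Set (ℝ × ℝ)), IsProjectiveAlgebra F → F.Countable →
      ∃ G : Set (Set (ℝ × ℝ)), G ⊆ U ∧ IsProjectiveAlgebra G ∧ Isomorphic F G := by
  rintro ⟨U, -, hc, h⟩
  have key : ∀ A : Set ℕ, ∃ (G : Set (Set (ℝ × ℝ))) (f : Set (ℝ × ℝ) → Set (ℝ × ℝ)),
      G ⊆ U ∧ IsIso (generated {code A}) G f := by
    intro A
    obtain ⟨G, hG, -, f, hf⟩ := h (generated {code A}) (generated_isProjectiveAlgebra _) (by
      rw [← range_const_one]
      exact generated_countable _)
    exact ⟨G, f, hG, hf⟩
  choose G f hG hf using key
  have hmem : ∀ A : Set ℕ, code A ∈ generated {code A} := fun A => subset_generated _ rfl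
  let g : Set ℕ → U := fun A => ⟨f A (code A), hG A ((hf A).bij.mapsTo (hmem A))⟩
  have hinj : Function.Injective g := by
    intro A A' e
    exact code_inj (hf A) (hf A') (generated_isProjectiveAlgebra _)
      (generated_isProjectiveAlgebra _) (hmem A) (hmem A') (congrArg Subtype.val e)
  have h1 := Cardinal.mk_le_of_injective hinj
  rw [Cardinal.mk_set, Cardinal.mk_nat, Cardinal.two_power_aleph0] at h1
  exact absurd hc (not_lt.2 h1)

end Pool.Agent.Results.MP_3db952_lc.NoUniversal
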